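import Pool.Agent.T9h52.TF.CellCore

/-!
# Coverings: reference points (core, without the spec)
-/

set_option autoImplicit false

open Set

namespace Pool.Agent.T9h52.TG

open Pool.Agent.T9h52.TF (ph ph_mono ph_abs)

theorem log109 : (1 : ℝ) / 10 ≤ Real.log (10 / 9) := by
  have := Real.one_sub_inv_le_log_of_pos (show (0 : ℝ) < 10 / 9 by norm_num)
  have h : 1 - ((10 : ℝ) / 9)⁻¹ = 1 / 10 := by norm_num
  linarith

theorem ph_key {s s' : ℝ} (h : s ≤ s') (h9 : ph s' - ph s ≤ 1 / 10) :
    s' - s ≤ (1 + |s|) / 9 := by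
  have hl := log109
  unfold ph at h9
  by_cases h0 : 0 ≤ s
  · rw [if_pos h0, if_pos (h0.trans h)] at h9
    rw [abs_of_nonneg h0]
    have h1 : Real.log (1 + s') ≤ Real.log (10 / 9 * (1 + s)) := by
      rw [Real.log_mul (by norm_num) (by linarith)]
      linarith
    have h2 := (Real.log_le_log_iff (by linarith) (by nlinarith)).1 h1
    linarith
  · push Not at h0
    rw [if_neg (not_le.2 h0)] at h9
    rw [abs_of_neg h0]
    by_cases h1 : 0 ≤ s'
    · rw [if_pos h1] at h9
      have h2 : Real.log ((1 + s') * (1 - s)) ≤ Real.log (10 / 9) := by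
        rw [Real.log_mul (by linarith) (by linarith)]
        linarith
      have h3 := (Real.log_le_log_iff (by nlinarith) (by norm_num)).1 h2
      nlinarith
    · push Not at h1
      rw [if_neg (not_le.2 h1)] at h9
      have h2 : Real.log (1 - s) ≤ Real.log (10 / 9 * (1 - s')) := by
        rw [Real.log_mul (by norm_num) (by linarith)]
        linarith
      have h3 := (Real.log_le_log_iff (by linarith) (by nlinarith)).1 h2
      linarith

theorem cov_core (B : Finset ℝ) (η Y p r : ℝ) (hη : 0 < η) (hY : 0 < Y) (hp : -Y ≤ p)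
    (hr : r ≤ Y) (hB : ∀ b ∈ B, |b| ≤ Y) :
    ∃ X : Finset ℝ, (∀ x ∈ X, p ≤ x ∧ x ≤ r) ∧
    (X.card : ℝ) ≤ 20 * B.card * Real.log (1 + 2 * Y / η) + 1 ∧
    ∀ y ∈ Icc p r, ∃ x ∈ X, ∀ b ∈ B, |y - x| ≤ (η + |x - b|) / 8 := by
  classical
  set L : ℝ := Real.log (1 + 2 * Y / η) with hL
  have hL0 : 0 ≤ L := Real.log_nonneg (by have : 0 ≤ 2 * Y / η := by positivity
                                          linarith)
  set K : ℝ := B.card * L with hK
  have hK0 : 0 ≤ K := by positivity
  let ψ : ℝ → ℝ := fun x => ∑ b ∈ B, ph ((x - b) / η)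
  have hψ : ∀ y ∈ Icc p r, |ψ y| ≤ K := by
    intro y hy
    have hyY : |y| ≤ Y := abs_le.2 ⟨hp.trans hy.1, hy.2.trans hr⟩
    calc |ψ y| ≤ ∑ b ∈ B, |ph ((y - b) / η)| := Finset.abs_sum_le_sum_abs _ _
      _ ≤ ∑ b ∈ B, L := by
          refine Finset.sum_le_sum fun b hb => ph_abs ?_
          rw [abs_div, abs_of_pos hη]
          gcongr
          calc |y - b| ≤ |y| + |b| := abs_sub _ _
            _ ≤ 2 * Y := by linarith [hyY, hB b hb]
      _ = K := by rw [Finset.sum_const, nsmul_eq_mul]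
  have hfl : ∀ y ∈ Icc p r, 0 ≤ 10 * (ψ y + K) ∧ 10 * (ψ y + K) ≤ 20 * K := by
    intro y hy
    obtain ⟨h1, h2⟩ := abs_le.1 (hψ y hy)
    constructor <;> linarith
  let f : ℝ → ℕ := fun y => ⌊10 * (ψ y + K)⌋₊
  -- the chosen point of a cell
  let ch : ℕ → ℝ := fun n => if h : ∃ y ∈ Icc p r, f y = n then h.choose else 0
  have hch : ∀ n, (∃ y ∈ Icc p r, f y = n) → ch n ∈ Icc p r ∧ f (ch n) = n := by
    intro n h
    have : ch n = h.choose := dif_pos h
    rw [this]
    exact h.choose_spec
  let N : Finset ℕ := (Finset.range (⌊20 * K⌋₊ + 1)).filter fun n => ∃ y ∈ Icc p r, f y = n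
  refine ⟨N.image ch, ?_, ?_, ?_⟩
  · intro x hx
    obtain ⟨n, hn, rfl⟩ := Finset.mem_image.1 hx
    exact (hch n (Finset.mem_filter.1 hn).2).1
  · have h1 : (N.image ch).card ≤ ⌊20 * K⌋₊ + 1 :=
      Finset.card_image_le.trans ((Finset.card_filter_le _ _).trans (by rw [Finset.card_range]))
    have h2 : (⌊20 * K⌋₊ : ℝ) ≤ 20 * K := Nat.floor_le (by positivity)
    have h3 : ((N.image ch).card : ℝ) ≤ (⌊20 * K⌋₊ : ℝ) + 1 := by exact_mod_cast h1
    have h4 : 20 * (B.card : ℝ) * L = 20 * K := by rw [hK]; ring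
    rw [h4]
    linarith
  · intro y hy
    have hex : ∃ y' ∈ Icc p r, f y' = f y := ⟨y, hy, rfl⟩
    obtain ⟨hc1, hc2⟩ := hch (f y) hex
    set x := ch (f y) with hx
    have hmem : f y ∈ N := by
      rw [Finset.mem_filter, Finset.mem_range, Nat.lt_succ_iff]
      exact ⟨Nat.floor_le_floor (hfl y hy).2, hex⟩
    refine ⟨x, Finset.mem_image_of_mem _ hmem, fun b hb => ?_⟩
    -- two points of one cell
    have hcell : ∀ u ∈ Icc p r, ∀ v ∈ Icc p r, f u = f v → u ≤ v →
        v - u ≤ (η + |u - b|) / 9 := by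
      intro u hu v hv huv hle
      have hsum : ψ v - ψ u ≤ 1 / 10 := by
        have e2 : 10 * (ψ v + K) < (f v : ℝ) + 1 := Nat.lt_floor_add_one _
        have e3 : (f u : ℝ) ≤ 10 * (ψ u + K) := Nat.floor_le (hfl u hu).1
        rw [huv] at e3
        linarith
      have hone : ph ((v - b) / η) - ph ((u - b) / η) ≤ 1 / 10 := by
        have : ph ((v - b) / η) - ph ((u - b) / η) ≤
            ∑ z ∈ B, (ph ((v - z) / η) - ph ((u - z) / η)) := by
          apply Finset.single_le_sum (f := fun z => ph ((v - z) / η) - ph ((u - z) / η)) _ hb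
          intro z _
          have : ph ((u - z) / η) ≤ ph ((v - z) / η) := ph_mono (by gcongr)
          simpa using this
        rw [Finset.sum_sub_distrib] at this
        exact this.trans hsum
      have hk := ph_key (s := (u - b) / η) (s' := (v - b) / η) (by gcongr) hone
      rw [abs_div, abs_of_pos hη] at hk
      have e4 : (v - b) / η - (u - b) / η = (v - u) / η := by ring
      rw [e4, div_le_iff₀ hη] at hk
      have e5 : (1 + |u - b| / η) / 9 * η = (η + |u - b|) / 9 := by
        field_simp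
      rw [e5] at hk
      exact hk
    rcases le_total x y with h | h
    · have h1 := hcell x hc1 y hy hc2 h
      rw [abs_of_nonneg (by linarith)]
      have h2 : 0 ≤ |x - b| := abs_nonneg _
      linarith
    · have h1 := hcell y hy x hc1 hc2.symm h
      rw [abs_of_nonpos (by linarith)]
      have h2 : |y - b| ≤ (x - y) + |x - b| := by
        calc |y - b| = |(y - x) + (x - b)| := by ring_nf
          _ ≤ |y - x| + |x - b| := abs_add_le _ _
          _ = (x - y) + |x - b| := by rw [abs_of_nonpos (by linarith : y - x ≤ 0)]; ring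
      have h3 : 0 ≤ |x - b| := abs_nonneg _
      linarith

end Pool.Agent.T9h52.TG
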