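import Pool.Agent.T9h20.TG.Spec
import Pool.Agent.T9h52.TG.CovCore

/-!
# The piece (C) of `Pool.Agent.T9h20.TG.Spec`
-/

set_option autoImplicit false

namespace Pool.Agent.T9h52.TG

theorem sCov : Pool.Agent.T9h20.TG.SCov :=
  fun B η Y p r hη hY hp _ hr hB => cov_core B η Y p r hη hY hp hr hB

end Pool.Agent.T9h52.TG
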