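import Pool.Agent.T9h20.TG.Spec
import Pool.Agent.T9h19.TF.Loc
import Pool.Agent.T9h75.TF.Alt

/-!
# The piece (K) of `Pool.Agent.T9h20.TG.Spec`: counting zeros with reference points
-/

set_option autoImplicit false

open MeasureTheory Set Filter Topology

namespace Pool.Agent.T9h52.TG

open Pool.Agent.T9h20.TA (mon mx)
open Pool.Agent.T9h20.TE (DD)
open Pool.Agent.T9h20.TF (Fr Fc MM SDec SZero)
open Pool.Agent.T9h20.TG

theorem sCount (hC : SCov) (hL : SLocG) (hB : SBdU) (hD : SDec) (hZ : SZero) : SCount := by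
  classical
  intro k q t m _ b d al c a D Y hD0 hY hal hd ha hc hb
  have hm : (0 : ℝ) < (m + 1) * D := by positivity
  set η : ℝ := 1 / ((m + 1) * D) with hη
  have hη0 : 0 < η := by positivity
  obtain ⟨X0, nx, s0, hX0c, hX0, hcov, hdom⟩ := hD q t c a hc Y hY
  have hlog : 0 ≤ Real.log (1 + 2 * Y * ((m + 1) * D)) := by
    apply Real.log_nonneg
    have : 0 ≤ 2 * Y * ((m + 1) * D) := by positivity
    linarith
  set W : ℝ := 20 * ((k : ℝ) ^ 2 + 2) * Real.log (1 + 2 * Y * ((m + 1) * D)) + 1 with hW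
  have hW0 : 0 ≤ W := by positivity
  -- the data of a block
  have hblk : ∀ x0 ∈ X0, ∃ (B X : Finset ℝ), (∀ x ∈ X, x ∈ Icc x0 (nx x0)) ∧ (X.card : ℝ) ≤ W ∧
      (∀ y ∈ Icc x0 (nx x0), ∃ x ∈ X, ∀ b ∈ B, |y - x| ≤ (η + |x - b|) / 8) ∧
      ∀ y ∈ Icc x0 (nx x0), ∀ R : ℝ, 0 < R → (∀ x' ∈ B, R ≤ (η + |y - x'|) / 2) →
      ∃ (i0 : Fin k) (E : ℝ), ∀ (f : ℂ → ℂ) (T : ℝ), 0 ≤ T →
        (∀ z, ‖f z‖ ≤ T * ∑ i, MM b d al c a i z.re) → ∀ z : ℂ, ‖z - y‖ ≤ R →
          ‖f z * Complex.exp (-(E * (z - y)))‖ ≤ 3 * (k * T) * MM b d al c a i0 y := by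
    intro x0 hx0
    obtain ⟨h1, h2, h3⟩ := hX0 x0 hx0
    obtain ⟨B, hBc, hBm, hBl⟩ := hL k q t m b d al c a D hD0 hal hd ha (s0 x0) x0 (nx x0) h1 hc hb
      (fun j => hdom x0 hx0 j)
    obtain ⟨X, hXm, hXc, hXcov⟩ := hC B η Y x0 (nx x0) hη0 hY h2 h1.le h3
      (fun x hx => abs_le.2 ⟨h2.trans (hBm x hx).1, (hBm x hx).2.trans h3⟩)
    refine ⟨B, X, hXm, ?_, hXcov, hBl⟩
    refine hXc.trans ?_
    have h4 : 2 * Y / η = 2 * Y * ((m + 1) * D) := by
      rw [hη, div_div_eq_mul_div, div_one]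
    rw [h4, hW]
    have hcard : (B.card : ℝ) ≤ (k : ℝ) ^ 2 + 2 := by exact_mod_cast hBc
    gcongr
  choose! BB XX hXm hXc hXcov hloc using hblk
  refine ⟨X0.biUnion XX, ?_, ?_⟩
  · have h1 : ((X0.biUnion XX).card : ℝ) ≤ ∑ x0 ∈ X0, ((XX x0).card : ℝ) := by
      exact_mod_cast Finset.card_biUnion_le
    refine h1.trans ?_
    calc ∑ x0 ∈ X0, ((XX x0).card : ℝ) ≤ ∑ x0 ∈ X0, W := Finset.sum_le_sum fun x0 hx0 => hXc x0 hx0
      _ = (X0.card : ℝ) * W := by rw [Finset.sum_const, nsmul_eq_mul]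
      _ ≤ (2 * q * t + 1) * W := by
          have : (X0.card : ℝ) ≤ 2 * q * t + 1 := by exact_mod_cast hX0c
          gcongr
  · intro c' hc' n hlow Z hZz
    obtain ⟨i1, hi1⟩ := hb
    have hT0 : (0 : ℝ) ≤ (2 * t : ℝ) ^ m := by positivity
    have hkT : (0 : ℝ) ≤ 3 * (k * (2 * t : ℝ) ^ m) := by positivity
    have hFr : ∀ x ∈ X0.biUnion XX, 0 < |Fr b d al c' a x| := by
      intro x hx
      have h1 := hlow x hx i1
      have h2 : 0 ≤ 3 * (k * (2 * t : ℝ) ^ m) * MM b d al c a i1 x :=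
        mul_nonneg hkT (Pool.Agent.T9h19.TF.MM_nonneg b d al c a i1 x)
      have h3 : (0 : ℝ) < 3 ^ (n + 1) := by positivity
      have h4 : 0 < |Fr b d al c' a x| * 3 ^ (n + 1) := lt_of_le_of_lt h2 h1
      exact (mul_pos_iff_of_pos_right h3).1 h4
    let A : ℝ → ℝ → Prop := fun z x => ∃ x0 ∈ X0, x ∈ XX x0 ∧
      ∀ b ∈ BB x0, |z - x| ≤ (η + |x - b|) / 8
    have hsub : Z ⊆ (X0.biUnion XX).biUnion fun x => Z.filter fun z => A z x := by
      intro z hz
      obtain ⟨x0, hx0, hzx⟩ := hcov z (hZz z hz).1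
      obtain ⟨x, hx, hxb⟩ := hXcov x0 hx0 z ⟨hzx.1, hzx.2.le⟩
      rw [Finset.mem_biUnion]
      exact ⟨x, Finset.mem_biUnion.2 ⟨x0, hx0, hx⟩,
        Finset.mem_filter.2 ⟨hz, x0, hx0, hx, hxb⟩⟩
    refine (Finset.card_le_card hsub).trans (Finset.card_biUnion_le_card_mul _ _ _ ?_)
    intro x hx
    by_contra hcon
    push Not at hcon
    have hne : (Z.filter fun z => A z x).Nonempty := by
      rw [← Finset.card_pos]
      omega
    obtain ⟨zs, hzs, hmax⟩ := Finset.exists_max_image (Z.filter fun z => A z x)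
      (fun z => |z - x|) hne
    rw [Finset.mem_filter] at hzs
    obtain ⟨hzsZ, x0, hx0, hxX, hxb⟩ := hzs
    have hzx : zs ≠ x := by
      rintro rfl
      have h1 := hFr zs hx
      rw [(hZz zs hzsZ).2, abs_zero] at h1
      exact lt_irrefl _ h1
    have hρ : 0 < |zs - x| := abs_pos.2 (sub_ne_zero.2 hzx)
    obtain ⟨i0, E, hE⟩ := hloc x0 hx0 x (hXm x0 hx0 x hxX) (4 * |zs - x|) (by positivity)
      (fun x' hx' => by have := hxb x' hx'; linarith)
    have hE' := hE (Fc b d al c' a) ((2 * t : ℝ) ^ m) hT0 (fun z => hB k q t m b d al c c' a hal hc' z)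
    have hexp : Differentiable ℂ (fun z : ℂ => Complex.exp (-((E : ℂ) * (z - (x : ℂ))))) := by
      fun_prop
    have hmain := hZ (fun z => Fc b d al c' a z * Complex.exp (-((E : ℂ) * (z - (x : ℂ)))))
      (x : ℂ) (4 * |zs - x|) (3 * (k * (2 * t : ℝ) ^ m) * MM b d al c a i0 x)
      ((Z.filter fun z => A z x).map ⟨fun x : ℝ => (x : ℂ), Complex.ofReal_injective⟩)
      (by positivity) ((Pool.Agent.T9h75.TF.fc_diff b d al c' a).mul hexp)
      (fun z hz => hE' z hz) ?_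
    · rw [Finset.card_map] at hmain
      simp only [sub_self, mul_zero, neg_zero, Complex.exp_zero, mul_one,
        Pool.Agent.T9h75.TF.fc_ofReal, Complex.norm_real, Real.norm_eq_abs] at hmain
      have hMM := Pool.Agent.T9h19.TF.MM_nonneg b d al c a i0 x
      have hA3 : (1 / 3 : ℝ) ^ (Z.filter fun z => A z x).card ≤ (1 / 3) ^ (n + 1) :=
        pow_le_pow_of_le_one (by norm_num) (by norm_num) hcon
      have h3 : (0 : ℝ) < 3 ^ (n + 1) := by positivity
      have h4 : |Fr b d al c' a x| * 3 ^ (n + 1) ≤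
          3 * (k * (2 * t : ℝ) ^ m) * MM b d al c a i0 x := by
        calc |Fr b d al c' a x| * 3 ^ (n + 1)
            ≤ 3 * (k * (2 * t : ℝ) ^ m) * MM b d al c a i0 x * (1 / 3) ^ (n + 1) * 3 ^ (n + 1) := by
              refine mul_le_mul_of_nonneg_right (hmain.trans ?_) h3.le
              exact mul_le_mul_of_nonneg_left hA3 (mul_nonneg hkT hMM)
          _ = 3 * (k * (2 * t : ℝ) ^ m) * MM b d al c a i0 x * ((1 / 3) ^ (n + 1) * 3 ^ (n + 1)) := by
              ring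
          _ = 3 * (k * (2 * t : ℝ) ^ m) * MM b d al c a i0 x := by
              rw [← mul_pow]
              norm_num
      exact absurd (hlow x hx i0) (not_lt.2 h4)
    · intro z hz
      obtain ⟨y, hy, rfl⟩ := Finset.mem_map.1 hz
      have hyZ := (Finset.mem_filter.1 hy).1
      refine ⟨?_, ?_⟩
      · show ‖(y : ℂ) - (x : ℂ)‖ ≤ 4 * |zs - x| / 4
        rw [← Complex.ofReal_sub, Complex.norm_real, Real.norm_eq_abs]
        have := hmax y hy
        linarith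
      · show Fc b d al c' a (y : ℂ) * Complex.exp (-((E : ℂ) * ((y : ℂ) - (x : ℂ)))) = 0
        rw [Pool.Agent.T9h75.TF.fc_ofReal, (hZz y hyZ).2]
        simp

end Pool.Agent.T9h52.TG
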